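import Pool.Agent.Q123.LO.Holder

/-!
# Tuples of permutations whose inversion graphs have a given sum
-/

namespace Q123.LO

open Finset

open Classical in
/-- All fibres of `p` are even. -/
def EvenFib {α : Type*} {t : ℕ} (p : Fin t → α) : Prop :=
  ∀ a, Even (∑ j, if p j = a then (1 : ℕ) else 0)

open Classical in
/-- The number of maps with even fibres. -/
noncomputable def evenCount (α : Type*) [Fintype α] (t : ℕ) : ℕ :=
  (univ.filter (fun p : Fin t → α => EvenFib p)).card

theorem evenCount_step {α : Type*} [Fintype α] (t : ℕ) :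
    evenCount α (t + 2) ≤ (t + 1) * Fintype.card α * evenCount α t := by
  classical
  have hsub : (univ.filter (fun p : Fin (t + 2) → α => EvenFib p)) ⊆
      (univ : Finset (Fin (t + 1) × α)).biUnion (fun iv =>
        (univ.filter (fun q : Fin t → α => EvenFib q)).image
          (fun q => (Fin.cons iv.2 (Fin.insertNth iv.1 iv.2 q : Fin (t + 1) → α) :
            Fin (t + 2) → α))) := by
    intro p hp
    rw [mem_filter] at hp
    have hp := hp.2
    have h0 := hp (p 0)
    rw [Fin.sum_univ_succ, if_pos rfl] at h0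
    have hex : ∃ i : Fin (t + 1), p i.succ = p 0 := by
      by_contra hcon
      push Not at hcon
      rw [Finset.sum_eq_zero (fun i _ => if_neg (hcon i))] at h0
      exact absurd h0 (by decide)
    obtain ⟨i, hi⟩ := hex
    rw [mem_biUnion]
    refine ⟨(i, p 0), mem_univ _, ?_⟩
    rw [mem_image]
    refine ⟨fun j => p (i.succAbove j).succ, ?_, ?_⟩
    · rw [mem_filter]
      refine ⟨mem_univ _, fun a => ?_⟩
      have ha := hp a
      rw [Fin.sum_univ_succ, Fin.sum_univ_succAbove _ i, hi, ← add_assoc] at ha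
      rw [Nat.even_add] at ha
      refine ha.1 ?_
      exact Even.add_self _
    · have h1 : (Fin.insertNth i (p 0) (fun j => p (i.succAbove j).succ) : Fin (t + 1) → α) =
          Fin.tail p := by
        have h2 := Fin.insertNth_self_removeNth i (Fin.tail p)
        rw [← h2]
        congr 1
        exact hi.symm
      show (Fin.cons (p 0) (Fin.insertNth i (p 0) (fun j => p (i.succAbove j).succ) :
        Fin (t + 1) → α) : Fin (t + 2) → α) = p
      rw [h1]
      exact Fin.cons_self_tail p
  unfold evenCount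
  refine (card_le_card hsub).trans (card_biUnion_le.trans ?_)
  refine (Finset.sum_le_sum (fun iv _ => card_image_le)).trans ?_
  rw [sum_const, card_univ, Fintype.card_prod, Fintype.card_fin, smul_eq_mul]

theorem evenCount_le {α : Type*} [Fintype α] (s : ℕ) :
    evenCount α (2 * s) ≤ (2 * s * Fintype.card α) ^ s := by
  classical
  induction s with
  | zero =>
    rw [pow_zero]
    unfold evenCount
    refine (card_filter_le _ _).trans ?_
    simp
  | succ s ih =>
    have h := evenCount_step (α := α) (2 * s)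
    have e : 2 * (s + 1) = 2 * s + 2 := by ring
    rw [e]
    refine h.trans ?_
    have h1 : evenCount α (2 * s) ≤ ((2 * s + 2) * Fintype.card α) ^ s :=
      ih.trans (Nat.pow_le_pow_left (Nat.mul_le_mul_right _ (by omega)) _)
    rw [pow_succ, mul_comm (((2 * s + 2) * Fintype.card α) ^ s)]
    exact Nat.mul_le_mul (Nat.mul_le_mul_right _ (by omega)) h1

/-- The sign of a comparison. -/
noncomputable def sg (a b : ℕ) : ℝ := if a < b then -1 else 1

theorem sg_pm (a b : ℕ) : sg a b = 1 ∨ sg a b = -1 := by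
  unfold sg
  split_ifs
  · exact Or.inr rfl
  · exact Or.inl rfl

open Classical in
/-- Insertions at positions `p j` in one and the same order: the fibres are even. -/
theorem chain_count {s k : ℕ} (τ : Equiv.Perm (Fin k)) :
    (univ.filter (fun p : Fin (2 * s) → Fin (k + 1) =>
      ∀ x : Fin k, ∏ j, sg (τ x) (p j) = 1)).card ≤ (2 * s * (k + 1)) ^ s := by
  have h := evenCount_le (α := Fin (k + 1)) s
  rw [Fintype.card_fin] at h
  refine le_trans (card_le_card ?_) h
  intro p hp
  rw [mem_filter] at hp ⊢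
  refine ⟨mem_univ _, ?_⟩
  have hp := hp.2
  have hm : ∀ m : ℕ, ∏ j, sg m (p j) = 1 := by
    intro m
    rcases Nat.lt_or_ge m k with h | h
    · have h1 := hp (τ.symm ⟨m, h⟩)
      rw [Equiv.apply_symm_apply] at h1
      exact h1
    · refine Finset.prod_eq_one (fun j _ => ?_)
      unfold sg
      rw [if_neg]
      have := (p j).isLt
      omega
  have hv : ∀ v : ℕ, ∏ j, (if ((p j : Fin (k + 1)) : ℕ) = v then (-1 : ℝ) else 1) = 1 := by
    intro v
    rcases v with _ | v
    · have h1 : ∀ j, (if ((p j : Fin (k + 1)) : ℕ) = 0 then (-1 : ℝ) else 1) =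
          (-1) * sg 0 (p j) := by
        intro j
        unfold sg
        rcases Nat.eq_zero_or_pos (p j : ℕ) with h | h
        · rw [h]
          norm_num
        · rw [if_neg h.ne', if_pos h]
          norm_num
      rw [Finset.prod_congr rfl (fun j _ => h1 j), Finset.prod_mul_distrib, hm 0, prod_const,
        card_univ, Fintype.card_fin, mul_one, pow_mul]
      norm_num
    · have h1 : ∀ j, (if ((p j : Fin (k + 1)) : ℕ) = v + 1 then (-1 : ℝ) else 1) =
          sg v (p j) * sg (v + 1) (p j) := by
        intro j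
        unfold sg
        rcases lt_trichotomy (p j : ℕ) (v + 1) with h | h | h
        · rw [if_neg (by omega), if_neg (by omega), if_neg (by omega)]
          norm_num
        · rw [if_pos h, if_pos (by omega), if_neg (by omega)]
          norm_num
        · rw [if_neg (by omega), if_pos (by omega), if_pos (by omega)]
          norm_num
      rw [Finset.prod_congr rfl (fun j _ => h1 j), Finset.prod_mul_distrib, hm, hm, mul_one]
  intro a
  have h1 := hv a
  rw [Finset.prod_ite, prod_const_one, mul_one, prod_const] at h1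
  have h2 := (neg_one_pow_eq_one_iff_even (by norm_num : (-1 : ℝ) ≠ 1)).1 h1
  rw [Finset.card_filter] at h2
  convert h2 using 4
  simp only [Fin.ext_iff]

open Classical in
/-- The number of `t`-tuples of permutations of `Fin k` whose inversion graphs have sum zero. -/
noncomputable def Z (t k : ℕ) : ℕ :=
  (univ.filter (fun σ : Fin t → Equiv.Perm (Fin k) =>
    ∀ x y, x < y → ∏ j, sg (σ j x) (σ j y) = 1)).card

theorem exists_dec {k : ℕ} (σ : Equiv.Perm (Fin (k + 1))) :
    ∃ τ : Equiv.Perm (Fin k), ∀ x, (σ (Fin.last k)).succAbove (τ x) = σ (Fin.castSucc x) := by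
  have h : ∀ x : Fin k, ∃ z, (σ (Fin.last k)).succAbove z = σ (Fin.castSucc x) := by
    intro x
    refine Fin.exists_succAbove_eq ?_
    intro h
    exact (Fin.castSucc_lt_last x).ne (σ.injective h)
  choose g hg using h
  have hinj : Function.Injective g := by
    intro x y hxy
    have := (hg x).symm.trans ((congrArg _ hxy).trans (hg y))
    exact Fin.castSucc_injective _ (σ.injective this)
  refine ⟨Equiv.ofBijective g (Finite.injective_iff_bijective.1 hinj), fun x => ?_⟩
  rw [Equiv.ofBijective_apply]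
  exact hg x

/-- The relative order of all but the last element. -/
noncomputable def dec {k : ℕ} (σ : Equiv.Perm (Fin (k + 1))) : Equiv.Perm (Fin k) :=
  (exists_dec σ).choose

theorem dec_spec {k : ℕ} (σ : Equiv.Perm (Fin (k + 1))) (x : Fin k) :
    (σ (Fin.last k)).succAbove (dec σ x) = σ (Fin.castSucc x) :=
  (exists_dec σ).choose_spec x

theorem dec_inj {k : ℕ} (σ σ' : Equiv.Perm (Fin (k + 1))) (h : dec σ = dec σ')
    (h' : σ (Fin.last k) = σ' (Fin.last k)) : σ = σ' := by
  ext x
  refine Fin.lastCases ?_ (fun y => ?_) x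
  · rw [h']
  · rw [← dec_spec, ← dec_spec, h, h']

theorem sg_castSucc {k : ℕ} (σ : Equiv.Perm (Fin (k + 1))) (x y : Fin k) :
    sg (σ (Fin.castSucc x)) (σ (Fin.castSucc y)) = sg (dec σ x) (dec σ y) := by
  rw [← dec_spec, ← dec_spec]
  unfold sg
  have h : (((σ (Fin.last k)).succAbove (dec σ x) : Fin (k + 1)) : ℕ) <
      ((σ (Fin.last k)).succAbove (dec σ y) : Fin (k + 1)) ↔
      ((dec σ x : Fin k) : ℕ) < (dec σ y : Fin k) := by
    rw [← Fin.lt_def, ← Fin.lt_def, Fin.succAbove_lt_succAbove_iff]
  simp only [h]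

theorem sg_last {k : ℕ} (σ : Equiv.Perm (Fin (k + 1))) (x : Fin k) :
    sg (σ (Fin.castSucc x)) (σ (Fin.last k)) = sg (dec σ x) (σ (Fin.last k)) := by
  rw [← dec_spec]
  unfold sg
  have h : (((σ (Fin.last k)).succAbove (dec σ x) : Fin (k + 1)) : ℕ) < (σ (Fin.last k) : ℕ) ↔
      ((dec σ x : Fin k) : ℕ) < (σ (Fin.last k) : ℕ) := by
    rw [← Fin.lt_def, Fin.succAbove_lt_iff_castSucc_lt, Fin.lt_def, Fin.val_castSucc]
  simp only [h]

theorem Z_step {s : ℕ} (hs : 0 < s) (k : ℕ) :
    Z (2 * s) (k + 1) ≤ Z (2 * s) k * (2 * s * (k + 1)) ^ s := by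
  classical
  have hmix : ∀ τ : Fin (2 * s) → Equiv.Perm (Fin k),
      (univ.filter (fun p : Fin (2 * s) → Fin (k + 1) =>
        ∀ x : Fin k, ∏ j, sg (τ j x) (p j) = 1)).card ≤ (2 * s * (k + 1)) ^ s := by
    intro τ
    have h := holder (even_two_mul s) (by omega)
      (fun j (q : Fin (k + 1)) (x : Fin k) => sg (τ j x) q) (fun _ _ _ => sg_pm _ _)
      (fun _ => 1) (fun _ => Or.inl rfl) (((2 * s * (k + 1)) ^ s : ℕ) : ℝ) (fun j => by
        exact_mod_cast chain_count (s := s) (τ j))
    exact_mod_cast h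
  let Φ : (Fin (2 * s) → Equiv.Perm (Fin (k + 1))) →
      (Fin (2 * s) → Equiv.Perm (Fin k)) × (Fin (2 * s) → Fin (k + 1)) :=
    fun σ => (fun j => dec (σ j), fun j => σ j (Fin.last k))
  have hΦ : Function.Injective Φ := by
    intro σ σ' h
    have h1 := congrArg Prod.fst h
    have h2 := congrArg Prod.snd h
    funext j
    exact dec_inj _ _ (congrFun h1 j) (congrFun h2 j)
  unfold Z
  rw [← card_image_of_injective _ hΦ]
  have hsub : ((univ.filter (fun σ : Fin (2 * s) → Equiv.Perm (Fin (k + 1)) =>
      ∀ x y, x < y → ∏ j, sg (σ j x) (σ j y) = 1)).image Φ) ⊆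
      (univ.filter (fun σ : Fin (2 * s) → Equiv.Perm (Fin k) =>
        ∀ x y, x < y → ∏ j, sg (σ j x) (σ j y) = 1)).biUnion (fun τ =>
          (univ.filter (fun p : Fin (2 * s) → Fin (k + 1) =>
            ∀ x : Fin k, ∏ j, sg (τ j x) (p j) = 1)).image (fun p => (τ, p))) := by
    intro z hz
    rw [mem_image] at hz
    obtain ⟨σ, hσ, rfl⟩ := hz
    have hσ := (mem_filter.1 hσ).2
    rw [mem_biUnion]
    refine ⟨fun j => dec (σ j), ?_, ?_⟩
    · rw [mem_filter]
      refine ⟨mem_univ _, fun x y hxy => ?_⟩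
      rw [← hσ (Fin.castSucc x) (Fin.castSucc y) (by simpa using hxy)]
      exact Finset.prod_congr rfl (fun j _ => (sg_castSucc (σ j) x y).symm)
    · rw [mem_image]
      refine ⟨fun j => σ j (Fin.last k), ?_, rfl⟩
      rw [mem_filter]
      refine ⟨mem_univ _, fun x => ?_⟩
      rw [← hσ (Fin.castSucc x) (Fin.last k) (Fin.castSucc_lt_last x)]
      exact Finset.prod_congr rfl (fun j _ => (sg_last (σ j) x).symm)
  refine (card_le_card hsub).trans (card_biUnion_le.trans ?_)
  refine (Finset.sum_le_sum (fun τ _ => card_image_le.trans (hmix τ))).trans ?_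
  rw [sum_const, smul_eq_mul]

theorem Z_le {s : ℕ} (hs : 0 < s) (k : ℕ) : Z (2 * s) k ≤ ((2 * s) ^ k * k.factorial) ^ s := by
  induction k with
  | zero =>
    unfold Z
    refine (card_filter_le _ _).trans ?_
    simp
  | succ k ih =>
    refine (Z_step hs k).trans ((Nat.mul_le_mul_right _ ih).trans (le_of_eq ?_))
    rw [← mul_pow, Nat.factorial_succ, pow_succ]
    congr 1
    ring

open Classical in
/-- The same bound for arbitrary numberings and an arbitrary right-hand side. -/
theorem count_general {s : ℕ} (hs : 0 < s) {k : ℕ} (f : Fin (2 * s) → Fin k → ℕ)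
    (hf : ∀ j, Function.Injective (f j)) (c : ℝ) (hc : c = 1 ∨ c = -1) :
    (univ.filter (fun σ : Fin (2 * s) → Equiv.Perm (Fin k) =>
      ∀ x y, x < y → ∏ j, sg (f j (σ j x)) (f j (σ j y)) = c)).card ≤ Z (2 * s) k := by
  have hpure : ∀ j, (univ.filter (fun p : Fin (2 * s) → Equiv.Perm (Fin k) =>
      ∀ xy : Fin k × Fin k, ∏ i, (if xy.1 < xy.2 then sg (f j (p i xy.1)) (f j (p i xy.2))
        else (1 : ℝ)) = 1)).card ≤ Z (2 * s) k := by
    intro j
    let ρ : Equiv.Perm (Fin k) := Tuple.sort (f j)
    have hmono : StrictMono (f j ∘ ρ) :=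
      (Tuple.monotone_sort (f j)).strictMono_of_injective ((hf j).comp ρ.injective)
    let Φ : (Fin (2 * s) → Equiv.Perm (Fin k)) → (Fin (2 * s) → Equiv.Perm (Fin k)) :=
      fun p i => ρ⁻¹ * p i
    have hΦ : Function.Injective Φ := by
      intro p p' h
      funext i
      exact mul_left_cancel (congrFun h i)
    unfold Z
    rw [← card_image_of_injective _ hΦ]
    refine card_le_card ?_
    intro z hz
    rw [mem_image] at hz
    obtain ⟨p, hp, rfl⟩ := hz
    have hp := (mem_filter.1 hp).2
    rw [mem_filter]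
    refine ⟨mem_univ _, fun x y hxy => ?_⟩
    have h1 := hp (x, y)
    rw [← h1]
    refine Finset.prod_congr rfl (fun i _ => ?_)
    rw [if_pos hxy]
    have h2 : ∀ a : Fin k, f j a = (f j ∘ ρ) (ρ⁻¹ a) := by
      intro a
      simp
    have h3 : f j (p i x) < f j (p i y) ↔ ((Φ p i x : Fin k) : ℕ) < (Φ p i y : Fin k) := by
      rw [h2, h2, hmono.lt_iff_lt, Fin.lt_def]
      rfl
    unfold sg
    simp only [h3]
  have h := holder (even_two_mul s) (by omega)
    (fun j (q : Equiv.Perm (Fin k)) (xy : Fin k × Fin k) =>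
      if xy.1 < xy.2 then sg (f j (q xy.1)) (f j (q xy.2)) else (1 : ℝ)) (fun j q xy => by
        split_ifs
        · exact sg_pm _ _
        · exact Or.inl rfl)
    (fun xy => if xy.1 < xy.2 then c else 1) (fun xy => by
        split_ifs
        · exact hc
        · exact Or.inl rfl) ((Z (2 * s) k : ℕ) : ℝ) (fun j => by
        exact_mod_cast hpure j)
  have h' := (Nat.cast_le (α := ℝ)).1 h
  refine le_trans (card_le_card ?_) h'
  intro σ hσ
  rw [mem_filter] at hσ ⊢
  refine ⟨mem_univ _, fun xy => ?_⟩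
  by_cases hxy : xy.1 < xy.2
  · simp only [if_pos hxy]
    exact hσ.2 _ _ hxy
  · simp only [if_neg hxy, prod_const_one]

end Q123.LO
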