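import Mathlib

/-!
# Colourings determined by linear orders

A two-colouring of the pairs of a set is a graph `G` (the first colour); it is determined by `t`
linear orders if the colour of a pair of different points `x`, `y` only depends on the set of those
orders in which `x` precedes `y`. The linear orders are given by injective numberings.
-/

namespace Q123.LO

/-- The graph `G` (that is, the two-colouring of the pairs of `V` by edges and non-edges) is
determined by `t` linear orders `x <_i y :↔ f i x < f i y`: if the pairs `x ≠ y` and `x' ≠ y'` are
compared in the same way by all the orders, then they have the same colour. -/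
def Determined {V : Type*} (G : SimpleGraph V) (t : ℕ) : Prop :=
  ∃ f : Fin t → V → ℕ, (∀ i, Function.Injective (f i)) ∧
    ∀ x y x' y' : V, x ≠ y → x' ≠ y' → (∀ i, f i x < f i y ↔ f i x' < f i y') →
      (G.Adj x y ↔ G.Adj x' y')

/-- A set whose pairs all have the same colour. -/
def Mono {V : Type*} (G : SimpleGraph V) (s : Set V) : Prop :=
  G.IsClique s ∨ Gᶜ.IsClique s

end Q123.LO
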