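import Mathlib

/-!
# A bound for the number of solutions of a product equation in sign vectors
-/

namespace Q123.LO

open Finset

open Classical in
/-- The number of `p` with `∏ j, G j (p j) i = T i` for all `i`, by Fourier inversion. -/
theorem fourier {ι κ : Type*} [Fintype ι] [Fintype κ] {t : ℕ} (G : Fin t → ι → κ → ℝ)
    (hG : ∀ j q i, G j q i = 1 ∨ G j q i = -1) (T : κ → ℝ) (hT : ∀ i, T i = 1 ∨ T i = -1) :
    (2 : ℝ) ^ Fintype.card κ *
        ((univ.filter (fun p : Fin t → ι => ∀ i, ∏ j, G j (p j) i = T i)).card : ℝ) =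
      ∑ y ∈ (univ : Finset κ).powerset, (∏ i ∈ y, T i) * ∏ j, ∑ q, ∏ i ∈ y, G j q i := by
  have hpm : ∀ (p : Fin t → ι) (i : κ), (∏ j, G j (p j) i = 1) ∨ (∏ j, G j (p j) i = -1) := by
    intro p i
    refine Finset.prod_induction (fun j => G j (p j) i) (fun z => z = 1 ∨ z = -1) ?_ (Or.inl rfl)
      (fun j _ => hG j (p j) i)
    rintro a b (rfl | rfl) (rfl | rfl) <;> norm_num
  have h1 : ∀ p : Fin t → ι, ∏ i, (1 + T i * ∏ j, G j (p j) i) =
      if (∀ i, ∏ j, G j (p j) i = T i) then (2 : ℝ) ^ Fintype.card κ else 0 := by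
    intro p
    split_ifs with h
    · rw [Finset.prod_congr rfl (g := fun _ => (2 : ℝ)) (fun i _ => ?_)]
      · rw [prod_const, card_univ]
      · rw [h i]
        rcases hT i with h' | h' <;> rw [h'] <;> norm_num
    · push Not at h
      obtain ⟨i, hi⟩ := h
      refine Finset.prod_eq_zero (mem_univ i) ?_
      rcases hT i with h' | h' <;> rcases hpm p i with h'' | h''
      · exact absurd (h''.trans h'.symm) hi
      · rw [h', h'']
        norm_num
      · rw [h', h'']
        norm_num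
      · exact absurd (h''.trans h'.symm) hi
  have h2 : ∑ p : Fin t → ι, ∏ i, (1 + T i * ∏ j, G j (p j) i) =
      (2 : ℝ) ^ Fintype.card κ *
        ((univ.filter (fun p : Fin t → ι => ∀ i, ∏ j, G j (p j) i = T i)).card : ℝ) := by
    rw [Finset.sum_congr rfl (fun p _ => h1 p), ← Finset.sum_filter, sum_const, nsmul_eq_mul,
      mul_comm]
  rw [← h2]
  have h3 : ∀ p : Fin t → ι, ∏ i, (1 + T i * ∏ j, G j (p j) i) =
      ∑ y ∈ (univ : Finset κ).powerset, (∏ i ∈ y, T i) * ∏ j, ∏ i ∈ y, G j (p j) i := by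
    intro p
    rw [Finset.prod_one_add]
    refine Finset.sum_congr rfl (fun y _ => ?_)
    rw [Finset.prod_mul_distrib, Finset.prod_comm]
  rw [Finset.sum_congr rfl (fun p _ => h3 p), Finset.sum_comm]
  refine Finset.sum_congr rfl (fun y _ => ?_)
  rw [← Finset.mul_sum]
  congr 1
  rw [Finset.prod_univ_sum, Fintype.piFinset_univ]

/-- The inequality between the arithmetic and the geometric mean, for absolute values. -/
theorem amgm {t : ℕ} (ht : 0 < t) (a : Fin t → ℝ) :
    |∏ j, a j| ≤ ∑ j, (t : ℝ)⁻¹ * |a j| ^ t := by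
  have h := Real.geom_mean_le_arith_mean_weighted (univ : Finset (Fin t)) (fun _ => (t : ℝ)⁻¹)
    (fun j => |a j| ^ t) (fun _ _ => by positivity) (by
      rw [sum_const, card_univ, Fintype.card_fin, nsmul_eq_mul]
      exact mul_inv_cancel₀ (by positivity)) (fun _ _ => by positivity)
  rw [Finset.abs_prod]
  refine le_trans (le_of_eq ?_) h
  refine Finset.prod_congr rfl (fun j _ => ?_)
  exact (Real.pow_rpow_inv_natCast (abs_nonneg _) ht.ne').symm

open Classical in
/-- The number of solutions of the mixed equation is at most the largest number of solutions of the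
pure equations with right-hand side `1`. -/
theorem holder {ι κ : Type*} [Fintype ι] [Fintype κ] {t : ℕ} (ht : Even t) (ht0 : 0 < t)
    (F : Fin t → ι → κ → ℝ) (hF : ∀ j q i, F j q i = 1 ∨ F j q i = -1) (T : κ → ℝ)
    (hT : ∀ i, T i = 1 ∨ T i = -1) (B : ℝ)
    (hB : ∀ s, ((univ.filter (fun p : Fin t → ι => ∀ i, ∏ j, F s (p j) i = 1)).card : ℝ) ≤ B) :
    ((univ.filter (fun p : Fin t → ι => ∀ i, ∏ j, F j (p j) i = T i)).card : ℝ) ≤ B := by
  have hpos : (0 : ℝ) < 2 ^ Fintype.card κ := by positivity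
  refine le_of_mul_le_mul_left ?_ hpos
  rw [fourier F hF T hT]
  set A : Fin t → Finset κ → ℝ := fun j y => ∑ q, ∏ i ∈ y, F j q i with hA
  have h1 : ∀ y : Finset κ, (∏ i ∈ y, T i) * ∏ j, ∑ q, ∏ i ∈ y, F j q i ≤
      ∑ j, (t : ℝ)⁻¹ * (A j y) ^ t := by
    intro y
    have hTy : |∏ i ∈ y, T i| = 1 := by
      rw [Finset.abs_prod]
      refine Finset.prod_eq_one (fun i _ => ?_)
      rcases hT i with h | h <;> rw [h] <;> norm_num
    calc (∏ i ∈ y, T i) * ∏ j, ∑ q, ∏ i ∈ y, F j q i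
        ≤ |(∏ i ∈ y, T i) * ∏ j, A j y| := le_abs_self _
      _ = |∏ j, A j y| := by rw [abs_mul, hTy, one_mul]
      _ ≤ ∑ j, (t : ℝ)⁻¹ * |A j y| ^ t := amgm ht0 _
      _ = ∑ j, (t : ℝ)⁻¹ * (A j y) ^ t := by
        refine Finset.sum_congr rfl (fun j _ => ?_)
        rw [ht.pow_abs]
  have h2 : ∀ s : Fin t, ∑ y ∈ (univ : Finset κ).powerset, (A s y) ^ t ≤
      2 ^ Fintype.card κ * B := by
    intro s
    have h := fourier (fun _ : Fin t => F s) (fun _ q i => hF s q i) (fun _ => (1 : ℝ))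
      (fun _ => Or.inl rfl)
    have h' : ∑ y ∈ (univ : Finset κ).powerset, (A s y) ^ t =
        ∑ y ∈ (univ : Finset κ).powerset, (∏ i ∈ y, (1 : ℝ)) *
          ∏ _j : Fin t, ∑ q, ∏ i ∈ y, F s q i := by
      refine Finset.sum_congr rfl (fun y _ => ?_)
      rw [prod_const_one, one_mul, prod_const, card_univ, Fintype.card_fin]
    rw [h', ← h]
    exact mul_le_mul_of_nonneg_left (hB s) hpos.le
  calc ∑ y ∈ (univ : Finset κ).powerset, (∏ i ∈ y, T i) * ∏ j, ∑ q, ∏ i ∈ y, F j q i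
      ≤ ∑ y ∈ (univ : Finset κ).powerset, ∑ j, (t : ℝ)⁻¹ * (A j y) ^ t :=
        Finset.sum_le_sum (fun y _ => h1 y)
    _ = ∑ j, (t : ℝ)⁻¹ * ∑ y ∈ (univ : Finset κ).powerset, (A j y) ^ t := by
        rw [Finset.sum_comm]
        refine Finset.sum_congr rfl (fun j _ => ?_)
        rw [Finset.mul_sum]
    _ ≤ ∑ _j : Fin t, (t : ℝ)⁻¹ * (2 ^ Fintype.card κ * B) := by
        refine Finset.sum_le_sum (fun j _ => ?_)
        exact mul_le_mul_of_nonneg_left (h2 j) (by positivity)
    _ = 2 ^ Fintype.card κ * B := by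
        rw [sum_const, card_univ, Fintype.card_fin, nsmul_eq_mul, ← mul_assoc,
          mul_inv_cancel₀ (by positivity), one_mul]

end Q123.LO
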