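import Pool.Agent.Q123.LO.Defs
import Pool.Agent.Q123.LO.Count

/-!
# Random linear orders
-/

namespace Q123.LO

open Finset

open Classical in
/-- The tuples of orders for which the points `e x` form a set with all signs equal to `c`. -/
noncomputable def bad {N k : ℕ} (t : ℕ) (e : Fin k ↪ Fin N) (c : ℝ) :
    Finset (Fin t → Equiv.Perm (Fin N)) :=
  univ.filter (fun π => ∀ x y, x < y → ∏ j, sg (π j (e x)) (π j (e y)) = c)

theorem bad_card {N k s : ℕ} (hs : 0 < s) (e : Fin k ↪ Fin N) (c : ℝ) (hc : c = 1 ∨ c = -1) :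
    k.factorial ^ (2 * s) * (bad (2 * s) e c).card ≤
      Fintype.card (Fin (2 * s) → Equiv.Perm (Fin N)) * Z (2 * s) k := by
  classical
  let ext : (Fin (2 * s) → Equiv.Perm (Fin k)) → (Fin (2 * s) → Equiv.Perm (Fin N)) :=
    fun σ j => (σ j).viaFintypeEmbedding e
  have h1 : ∀ σ : Fin (2 * s) → Equiv.Perm (Fin k), (bad (2 * s) e c).card =
      ∑ π : Fin (2 * s) → Equiv.Perm (Fin N), if π * ext σ ∈ bad (2 * s) e c then 1 else 0 := by
    intro σ
    rw [← Finset.card_filter]
    symm
    refine Finset.card_bij (fun π _ => π * ext σ) ?_ ?_ ?_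
    · intro π hπ
      exact (mem_filter.1 hπ).2
    · intro π _ π' _ h
      exact mul_right_cancel h
    · intro π hπ
      refine ⟨π * (ext σ)⁻¹, ?_, ?_⟩
      · rw [mem_filter]
        refine ⟨mem_univ _, ?_⟩
        rw [inv_mul_cancel_right]
        exact hπ
      · rw [inv_mul_cancel_right]
  have h2 : ∀ π : Fin (2 * s) → Equiv.Perm (Fin N),
      (∑ σ : Fin (2 * s) → Equiv.Perm (Fin k), if π * ext σ ∈ bad (2 * s) e c then 1 else 0) ≤
        Z (2 * s) k := by
    intro π
    rw [← Finset.card_filter]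
    refine le_trans (card_le_card ?_) (count_general hs (fun j a => ((π j (e a) : Fin N) : ℕ))
      (fun j a b hab => e.injective ((π j).injective (Fin.ext hab))) c hc)
    intro σ hσ
    rw [mem_filter] at hσ ⊢
    refine ⟨mem_univ _, fun x y hxy => ?_⟩
    have h3 := (mem_filter.1 hσ.2).2 x y hxy
    rw [← h3]
    refine Finset.prod_congr rfl (fun j _ => ?_)
    have h4 : ∀ a : Fin k, (π * ext σ) j (e a) = π j (e (σ j a)) := by
      intro a
      show π j ((σ j).viaFintypeEmbedding e (e a)) = _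
      rw [Equiv.Perm.viaFintypeEmbedding_apply_image]
    rw [h4, h4]
  have hcard : Fintype.card (Fin (2 * s) → Equiv.Perm (Fin k)) = k.factorial ^ (2 * s) := by
    rw [Fintype.card_fun, Fintype.card_perm, Fintype.card_fin, Fintype.card_fin]
  calc k.factorial ^ (2 * s) * (bad (2 * s) e c).card
      = ∑ σ : Fin (2 * s) → Equiv.Perm (Fin k), (bad (2 * s) e c).card := by
        rw [sum_const, card_univ, hcard, smul_eq_mul]
    _ = ∑ σ : Fin (2 * s) → Equiv.Perm (Fin k), ∑ π : Fin (2 * s) → Equiv.Perm (Fin N),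
          (if π * ext σ ∈ bad (2 * s) e c then 1 else 0) :=
        Finset.sum_congr rfl (fun σ _ => h1 σ)
    _ = ∑ π : Fin (2 * s) → Equiv.Perm (Fin N), ∑ σ : Fin (2 * s) → Equiv.Perm (Fin k),
          (if π * ext σ ∈ bad (2 * s) e c then 1 else 0) := Finset.sum_comm
    _ ≤ ∑ _π : Fin (2 * s) → Equiv.Perm (Fin N), Z (2 * s) k :=
        Finset.sum_le_sum (fun π _ => h2 π)
    _ = _ := by rw [sum_const, card_univ, smul_eq_mul]

/-- If the union bound applies then there are `2 s` orders without homogeneous `k`-set. -/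
theorem exists_orders {N k s : ℕ} (hs : 0 < s)
    (h : 2 * N.choose k * Z (2 * s) k < k.factorial ^ (2 * s)) :
    ∃ π : Fin (2 * s) → Equiv.Perm (Fin N), ∀ (e : Fin k ↪o Fin N) (c : ℝ), (c = 1 ∨ c = -1) →
      π ∉ bad (2 * s) e.toEmbedding c := by
  classical
  by_contra hcon
  push Not at hcon
  let emb : (powersetCard k (univ : Finset (Fin N))) → (Fin k ↪o Fin N) :=
    fun S => S.1.orderEmbOfFin (mem_powersetCard.1 S.2).2
  have hcov : (univ : Finset (Fin (2 * s) → Equiv.Perm (Fin N))) ⊆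
      (univ : Finset (powersetCard k (univ : Finset (Fin N)))).biUnion (fun S =>
        bad (2 * s) (emb S).toEmbedding 1 ∪ bad (2 * s) (emb S).toEmbedding (-1)) := by
    intro π _
    obtain ⟨e, c, hc, hπ⟩ := hcon π
    rw [mem_biUnion]
    have hS : univ.map e.toEmbedding ∈ powersetCard k (univ : Finset (Fin N)) := by
      rw [mem_powersetCard]
      refine ⟨subset_univ _, ?_⟩
      rw [card_map, card_univ, Fintype.card_fin]
    refine ⟨⟨univ.map e.toEmbedding, hS⟩, mem_univ _, ?_⟩
    have he : emb ⟨univ.map e.toEmbedding, hS⟩ = e := by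
      symm
      refine Finset.orderEmbOfFin_unique' _ (fun x => ?_)
      exact mem_map_of_mem _ (mem_univ x)
    rw [he, mem_union]
    rcases hc with rfl | rfl
    · exact Or.inl hπ
    · exact Or.inr hπ
  have hle := (card_le_card hcov).trans card_biUnion_le
  rw [card_univ] at hle
  set M := Fintype.card (Fin (2 * s) → Equiv.Perm (Fin N)) with hM
  have hMpos : 0 < M := Fintype.card_pos
  have h1 : k.factorial ^ (2 * s) * M ≤ N.choose k * (2 * (M * Z (2 * s) k)) := by
    calc k.factorial ^ (2 * s) * M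
        ≤ k.factorial ^ (2 * s) * ∑ S : powersetCard k (univ : Finset (Fin N)),
          (bad (2 * s) (emb S).toEmbedding 1 ∪ bad (2 * s) (emb S).toEmbedding (-1)).card :=
          Nat.mul_le_mul_left _ hle
      _ = ∑ S : powersetCard k (univ : Finset (Fin N)), k.factorial ^ (2 * s) *
          (bad (2 * s) (emb S).toEmbedding 1 ∪ bad (2 * s) (emb S).toEmbedding (-1)).card := by
          rw [Finset.mul_sum]
      _ ≤ ∑ _S : powersetCard k (univ : Finset (Fin N)), 2 * (M * Z (2 * s) k) := by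
          refine Finset.sum_le_sum (fun S _ => ?_)
          have e1 := bad_card hs (emb S).toEmbedding 1 (Or.inl rfl)
          have e2 := bad_card hs (emb S).toEmbedding (-1) (Or.inr rfl)
          rw [← hM] at e1 e2
          refine (Nat.mul_le_mul_left _ (card_union_le _ _)).trans ?_
          rw [mul_add]
          exact (Nat.add_le_add e1 e2).trans (le_of_eq (by ring))
      _ = N.choose k * (2 * (M * Z (2 * s) k)) := by
          rw [sum_const, card_univ, Fintype.card_coe, card_powersetCard, card_univ,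
            Fintype.card_fin, smul_eq_mul]
  have h2 : N.choose k * (2 * (M * Z (2 * s) k)) = (2 * N.choose k * Z (2 * s) k) * M := by ring
  rw [h2] at h1
  exact absurd h (not_lt.2 (Nat.le_of_mul_le_mul_right h1 hMpos))

theorem sg_anti {a b : ℕ} (h : a ≠ b) : sg b a = -sg a b := by
  unfold sg
  rcases Nat.lt_or_gt_of_ne h with h | h
  · rw [if_pos h, if_neg (by omega)]
    norm_num
  · rw [if_pos h, if_neg (by omega)]

theorem prod_pm {t : ℕ} (a b : Fin t → ℕ) :
    (∏ j, sg (a j) (b j) = 1) ∨ (∏ j, sg (a j) (b j) = -1) := by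
  refine Finset.prod_induction (fun j => sg (a j) (b j)) (fun z => z = 1 ∨ z = -1) ?_ (Or.inl rfl)
    (fun j _ => sg_pm _ _)
  rintro a b (rfl | rfl) (rfl | rfl) <;> norm_num

theorem prod_symm {s : ℕ} (a b : Fin (2 * s) → ℕ) (h : ∀ j, a j ≠ b j) :
    ∏ j, sg (b j) (a j) = ∏ j, sg (a j) (b j) := by
  rw [Finset.prod_congr rfl (fun j _ => sg_anti (h j))]
  have : ∀ j, -sg (a j) (b j) = (-1) * sg (a j) (b j) := fun j => by ring
  rw [Finset.prod_congr rfl (fun j _ => this j), Finset.prod_mul_distrib, prod_const, card_univ,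
    Fintype.card_fin, pow_mul]
  norm_num

/-- The graph given by the parity of the number of the orders in which two points are compared in
the same way as their numbers. -/
def parityGraph {N s : ℕ} (π : Fin (2 * s) → Equiv.Perm (Fin N)) : SimpleGraph (Fin N) where
  Adj x y := x ≠ y ∧ ∏ j, sg (π j x) (π j y) = -1
  symm := ⟨by
    rintro x y ⟨hxy, h⟩
    refine ⟨hxy.symm, ?_⟩
    rw [← h]
    exact prod_symm _ _ (fun j => by
      intro hj
      exact hxy ((π j).injective (Fin.ext hj)))⟩
  loopless := ⟨fun x h => h.1 rfl⟩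

theorem parity_determined {N s t : ℕ} (hst : 2 * s ≤ t) (π : Fin (2 * s) → Equiv.Perm (Fin N)) :
    Determined (parityGraph π) t := by
  refine ⟨fun i x => if h : (i : ℕ) < 2 * s then (π ⟨i, h⟩ x : ℕ) else (x : ℕ), ?_, ?_⟩
  · intro i x y hxy
    by_cases h : (i : ℕ) < 2 * s
    · simp only [dif_pos h] at hxy
      exact (π ⟨i, h⟩).injective (Fin.ext hxy)
    · simp only [dif_neg h] at hxy
      exact Fin.ext hxy
  · intro x y x' y' hxy hxy' h
    have h1 : ∏ j, sg (π j x) (π j y) = ∏ j, sg (π j x') (π j y') := by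
      refine Finset.prod_congr rfl (fun j _ => ?_)
      have h2 := h ⟨j, lt_of_lt_of_le j.isLt hst⟩
      simp only [j.isLt, dif_pos] at h2
      unfold sg
      simp only [h2]
    show (x ≠ y ∧ _) ↔ (x' ≠ y' ∧ _)
    rw [h1]
    simp [hxy, hxy']

/-- The lower bound under the numerical condition of the union bound. -/
theorem lower_of_bound {N k s t : ℕ} (hs : 0 < s) (hst : 2 * s ≤ t)
    (h : 2 * N.choose k * Z (2 * s) k < k.factorial ^ (2 * s)) :
    ∃ G : SimpleGraph (Fin N), Determined G t ∧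
      ∀ S : Finset (Fin N), Mono G (S : Set (Fin N)) → S.card < k := by
  classical
  obtain ⟨π, hπ⟩ := exists_orders hs h
  refine ⟨parityGraph π, parity_determined hst π, fun S hS => ?_⟩
  by_contra hcard
  push Not at hcard
  obtain ⟨S', hS', hS'c⟩ := exists_subset_card_eq hcard
  let e : Fin k ↪o Fin N := S'.orderEmbOfFin hS'c
  have he : ∀ x, e x ∈ (S : Set (Fin N)) := fun x => hS' (S'.orderEmbOfFin_mem hS'c x)
  rcases hS with hS | hS
  · refine hπ e (-1) (Or.inr rfl) ?_
    unfold bad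
    rw [mem_filter]
    refine ⟨mem_univ _, fun x y hxy => ?_⟩
    exact (hS (he x) (he y) (fun h' => hxy.ne (e.injective h'))).2
  · refine hπ e 1 (Or.inl rfl) ?_
    unfold bad
    rw [mem_filter]
    refine ⟨mem_univ _, fun x y hxy => ?_⟩
    have hne : e x ≠ e y := fun h' => hxy.ne (e.injective h')
    have h1 := (SimpleGraph.compl_adj _ _ _).1 (hS (he x) (he y) hne)
    rcases prod_pm (fun j => ((π j (e x) : Fin N) : ℕ)) (fun j => ((π j (e y) : Fin N) : ℕ)) with h2 | h2
    · exact h2
    · exact absurd ⟨hne, h2⟩ h1.2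

/-- The numerical condition, simplified. -/
theorem bound_of_factorial {N k s : ℕ} (hs : 0 < s)
    (h : 2 * N ^ k * (2 * s) ^ (k * s) < k.factorial ^ (s + 1)) :
    2 * N.choose k * Z (2 * s) k < k.factorial ^ (2 * s) := by
  have hk : 0 < k.factorial := Nat.factorial_pos k
  have h1 : N.choose k * k.factorial ≤ N ^ k := by
    rw [mul_comm, ← Nat.descFactorial_eq_factorial_mul_choose]
    exact Nat.descFactorial_le_pow N k
  have h2 := Z_le hs k
  refine Nat.lt_of_mul_lt_mul_right (a := k.factorial) ?_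
  calc 2 * N.choose k * Z (2 * s) k * k.factorial
      = 2 * (N.choose k * k.factorial) * Z (2 * s) k := by ring
    _ ≤ 2 * N ^ k * ((2 * s) ^ k * k.factorial) ^ s :=
        Nat.mul_le_mul (Nat.mul_le_mul_left _ h1) h2
    _ = (2 * N ^ k * (2 * s) ^ (k * s)) * k.factorial ^ s := by
        rw [mul_pow, ← pow_mul]
        ring
    _ < k.factorial ^ (s + 1) * k.factorial ^ s :=
        Nat.mul_lt_mul_of_pos_right h (by positivity)
    _ = k.factorial ^ (2 * s) * k.factorial := by
        rw [← pow_add, ← pow_succ]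
        congr 1
        ring

theorem factorial_ge (k : ℕ) : k ^ k ≤ 3 ^ k * k.factorial := by
  induction k with
  | zero => simp
  | succ k ih =>
    rcases Nat.eq_zero_or_pos k with rfl | hk
    · simp
    have h1 : ((k + 1 : ℕ) : ℝ) ^ k ≤ 3 * (k : ℝ) ^ k := by
      have hk' : (0 : ℝ) < k := by exact_mod_cast hk
      have h2 : ((k + 1 : ℕ) : ℝ) ^ k = (k : ℝ) ^ k * (1 + 1 / k) ^ k := by
        rw [← mul_pow]
        congr 1
        push_cast
        field_simp
      rw [h2, mul_comm]
      refine mul_le_mul_of_nonneg_right ?_ (by positivity)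
      have h3 : (1 + 1 / (k : ℝ)) ^ k ≤ Real.exp 1 := by
        calc (1 + 1 / (k : ℝ)) ^ k ≤ (Real.exp (1 / k)) ^ k := by
              refine pow_le_pow_left₀ (by positivity) ?_ _
              have := Real.add_one_le_exp (1 / (k : ℝ))
              linarith
          _ = Real.exp 1 := by
              rw [← Real.exp_nat_mul]
              congr 1
              field_simp
      have h4 := Real.exp_one_lt_d9
      linarith
    have h5 : (k + 1) ^ k ≤ 3 * k ^ k := by exact_mod_cast h1
    calc (k + 1) ^ (k + 1) = (k + 1) ^ k * (k + 1) := pow_succ _ _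
      _ ≤ 3 * k ^ k * (k + 1) := Nat.mul_le_mul_right _ h5
      _ ≤ 3 * (3 ^ k * k.factorial) * (k + 1) :=
          Nat.mul_le_mul_right _ (Nat.mul_le_mul_left _ ih)
      _ = 3 ^ (k + 1) * (k + 1).factorial := by
          rw [pow_succ, Nat.factorial_succ]
          ring

/-- General form of the lower bound: `6 N (6 s) ^ s ≤ k ^ (s + 1)` suffices for `2 s` orders. -/
theorem lower_general {N k s t : ℕ} (hs : 0 < s) (hst : 2 * s ≤ t) (hk : 1 < k)
    (h : 6 * N * (6 * s) ^ s ≤ k ^ (s + 1)) :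
    ∃ G : SimpleGraph (Fin N), Determined G t ∧
      ∀ S : Finset (Fin N), Mono G (S : Set (Fin N)) → S.card < k := by
  refine lower_of_bound hs hst (bound_of_factorial hs ?_)
  refine Nat.lt_of_mul_lt_mul_right (a := 3 ^ (k * (s + 1))) ?_
  have h1 : (6 * N * (6 * s) ^ s) ^ k ≤ (k ^ (s + 1)) ^ k := Nat.pow_le_pow_left h k
  have h2 : (k ^ (s + 1)) ^ k = (k ^ k) ^ (s + 1) := by
    rw [← pow_mul, ← pow_mul, mul_comm]
  have h3 : (k ^ k) ^ (s + 1) ≤ (3 ^ k * k.factorial) ^ (s + 1) :=
    Nat.pow_le_pow_left (factorial_ge k) _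
  have h4 : (3 ^ k * k.factorial) ^ (s + 1) = k.factorial ^ (s + 1) * 3 ^ (k * (s + 1)) := by
    rw [mul_pow, ← pow_mul, mul_comm]
  have h5 : (6 * N * (6 * s) ^ s) ^ k =
      2 ^ k * N ^ k * (2 * s) ^ (k * s) * 3 ^ (k * (s + 1)) := by
    have e1 : 6 * N * (6 * s) ^ s = 2 * N * (2 * s) ^ s * 3 ^ (s + 1) := by
      have : 6 * s = 3 * (2 * s) := by ring
      rw [this, mul_pow]
      ring
    rw [e1, mul_pow, mul_pow, mul_pow, ← pow_mul, ← pow_mul]
    congr 2 <;> ring
  rcases Nat.eq_zero_or_pos N with rfl | hN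
  · rw [zero_pow (by omega), mul_zero, zero_mul, zero_mul]
    exact Nat.mul_pos (pow_pos (Nat.factorial_pos k) _) (pow_pos (by norm_num) _)
  · have h6 : 2 * N ^ k * (2 * s) ^ (k * s) * 3 ^ (k * (s + 1)) <
        (6 * N * (6 * s) ^ s) ^ k := by
      rw [h5]
      have h7 : 2 < 2 ^ k := by
        calc 2 = 2 ^ 1 := by norm_num
          _ < 2 ^ k := Nat.pow_lt_pow_right (by norm_num) hk
      refine Nat.mul_lt_mul_of_pos_right ?_ (by positivity)
      refine Nat.mul_lt_mul_of_pos_right ?_ (by positivity)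
      exact Nat.mul_lt_mul_of_pos_right h7 (by positivity)
    calc _ < (6 * N * (6 * s) ^ s) ^ k := h6
      _ ≤ (k ^ (s + 1)) ^ k := h1
      _ = (k ^ k) ^ (s + 1) := h2
      _ ≤ _ := h3
      _ = _ := h4

/-- The lower bound `k ^ (t / 4)` for `k ≥ 9 t ^ 2`. -/
theorem lower_simple {k t : ℕ} (ht : 1 ≤ t) (hk : 9 * t ^ 2 ≤ k) :
    ∃ G : SimpleGraph (Fin (k ^ (t / 4))), Determined G t ∧
      ∀ S : Finset (Fin (k ^ (t / 4))), Mono G (S : Set (Fin (k ^ (t / 4)))) → S.card < k := by
  have hk9 : 9 ≤ k := by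
    refine le_trans ?_ hk
    have : 1 ≤ t ^ 2 := Nat.one_le_pow _ _ ht
    omega
  rcases Nat.eq_zero_or_pos (t / 4) with h0 | hu
  · refine ⟨⊥, ⟨fun _ x => (x : ℕ), fun _ x y h => Fin.ext h, fun _ _ _ _ _ _ _ => Iff.rfl⟩, ?_⟩
    intro S _
    have h1 := card_le_univ S
    have h2 : k ^ (t / 4) = 1 := by rw [h0, pow_zero]
    rw [Fintype.card_fin] at h1
    omega
  · set u := t / 4 with hu'
    have h4 : 4 * u ≤ t := by omega
    refine lower_general (s := 2 * u) (by omega) (by omega) (by omega) ?_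
    have h1 : 144 * u ^ 2 ≤ k := by
      refine le_trans ?_ hk
      have := Nat.pow_le_pow_left h4 2
      calc 144 * u ^ 2 = 9 * (4 * u) ^ 2 := by ring
        _ ≤ 9 * t ^ 2 := Nat.mul_le_mul_left _ this
    have h2 : (6 * (2 * u)) ^ (2 * u) = (144 * u ^ 2) ^ u := by
      rw [pow_mul]
      congr 1
      ring
    calc 6 * k ^ u * (6 * (2 * u)) ^ (2 * u) = 6 * k ^ u * (144 * u ^ 2) ^ u := by rw [h2]
      _ ≤ k * k ^ u * k ^ u := by
          refine Nat.mul_le_mul (Nat.mul_le_mul_right _ (by omega)) (Nat.pow_le_pow_left h1 _)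
      _ = k ^ (2 * u + 1) := by ring

/-- Linearly many orders are enough for exponential growth. -/
theorem lower_exp {k : ℕ} (hk : 12 ≤ k) :
    ∃ G : SimpleGraph (Fin (2 ^ (k / 12))), Determined G (k / 6) ∧
      ∀ S : Finset (Fin (2 ^ (k / 12))), Mono G (S : Set (Fin (2 ^ (k / 12)))) → S.card < k := by
  refine lower_general (s := k / 12) (by omega) (by omega) (by omega) ?_
  have h1 : 12 * (k / 12) ≤ k := by omega
  calc 6 * 2 ^ (k / 12) * (6 * (k / 12)) ^ (k / 12) = 6 * (12 * (k / 12)) ^ (k / 12) := by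
        rw [mul_assoc, ← mul_pow]
        congr 2
        ring
    _ ≤ k * k ^ (k / 12) := Nat.mul_le_mul (by omega) (Nat.pow_le_pow_left h1 _)
    _ = k ^ (k / 12 + 1) := by ring

end Q123.LO
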