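import Pool.Agent.Q123.LO.Defs

namespace Q123.LO

open Finset

/-- A threshold that cuts off exactly `a` elements. -/
theorem threshold {V : Type*} (A : Finset V) (f : V → ℕ) (hf : Function.Injective f) (a : ℕ)
    (ha : a ≤ A.card) : ∃ τ : ℕ, (A.filter (fun x => f x < τ)).card = a := by
  classical
  have hex : ∃ τ, a ≤ (A.filter (fun x => f x < τ)).card := by
    refine ⟨A.sup f + 1, ?_⟩
    rw [filter_true_of_mem]
    · exact ha
    · intro x hx
      exact Nat.lt_succ_of_le (le_sup (f := f) hx)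
  refine ⟨Nat.find hex, le_antisymm ?_ (Nat.find_spec hex)⟩
  rcases Nat.eq_zero_or_pos (Nat.find hex) with h0 | hpos
  · rw [h0]
    simp
  · have h1 := Nat.find_min hex (m := Nat.find hex - 1) (by omega)
    push Not at h1
    have h2 : (A.filter (fun x => f x < Nat.find hex)) ⊆
        (A.filter (fun x => f x < Nat.find hex - 1)) ∪
          (A.filter (fun x => f x = Nat.find hex - 1)) := by
      intro x hx
      rw [mem_filter] at hx
      rw [mem_union, mem_filter, mem_filter]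
      rcases Nat.lt_or_ge (f x) (Nat.find hex - 1) with h | h
      · exact Or.inl ⟨hx.1, h⟩
      · exact Or.inr ⟨hx.1, by omega⟩
    have h3 : (A.filter (fun x => f x = Nat.find hex - 1)).card ≤ 1 := by
      rw [card_le_one]
      intro x hx y hy
      rw [mem_filter] at hx hy
      exact hf (hx.2.trans hy.2.symm)
    have h4 := (card_le_card h2).trans (card_union_le _ _)
    omega

/-- Two sets can be separated in a linear order by discarding halves. -/
theorem halve {V : Type*} (A B : Finset V) (f : V → ℕ) (hf : Function.Injective f) (n : ℕ)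
    (hA : 2 * n ≤ A.card) (hB : 2 * n ≤ B.card) :
    ∃ A' B' : Finset V, A' ⊆ A ∧ B' ⊆ B ∧ n ≤ A'.card ∧ n ≤ B'.card ∧
      ((∀ x ∈ A', ∀ y ∈ B', f x < f y) ∨ (∀ x ∈ A', ∀ y ∈ B', f y < f x)) := by
  classical
  obtain ⟨τ, hτ⟩ := threshold A f hf n (by omega)
  obtain ⟨τ', hτ'⟩ := threshold B f hf n (by omega)
  have h1 := card_filter_add_card_filter_not (s := A) (fun x => f x < τ)
  have h2 := card_filter_add_card_filter_not (s := B) (fun x => f x < τ')
  rcases Nat.le_total τ τ' with h | h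
  · refine ⟨A.filter (fun x => f x < τ), B.filter (fun x => ¬ f x < τ'), filter_subset _ _,
      filter_subset _ _, hτ.ge, by omega, Or.inl ?_⟩
    intro x hx y hy
    rw [mem_filter] at hx hy
    omega
  · refine ⟨A.filter (fun x => ¬ f x < τ), B.filter (fun x => f x < τ'), filter_subset _ _,
      filter_subset _ _, by omega, hτ'.ge, Or.inr ?_⟩
    intro x hx y hy
    rw [mem_filter] at hx hy
    omega

/-- Separating two sets in all orders of a finite set `I` of indices. -/
theorem halveAll {V : Type*} {t : ℕ} (f : Fin t → V → ℕ) (hf : ∀ i, Function.Injective (f i))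
    (I : Finset (Fin t)) : ∀ (A B : Finset V) (n : ℕ), 2 ^ I.card * n ≤ A.card →
      2 ^ I.card * n ≤ B.card →
    ∃ A' B' : Finset V, A' ⊆ A ∧ B' ⊆ B ∧ n ≤ A'.card ∧ n ≤ B'.card ∧
      ∀ i ∈ I, ((∀ x ∈ A', ∀ y ∈ B', f i x < f i y) ∨ (∀ x ∈ A', ∀ y ∈ B', f i y < f i x)) := by
  classical
  induction I using Finset.induction_on with
  | empty =>
    intro A B n hA hB
    rw [card_empty, pow_zero, one_mul] at hA hB
    exact ⟨A, B, subset_rfl, subset_rfl, hA, hB, by simp⟩
  | insert a I ha ih =>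
    intro A B n hA hB
    rw [card_insert_of_notMem ha, pow_succ] at hA hB
    obtain ⟨A', B', hA', hB', h1, h2, h3⟩ := ih A B (2 * n) (by linarith) (by linarith)
    obtain ⟨A'', B'', hA'', hB'', h4, h5, h6⟩ := halve A' B' (f a) (hf a) n h1 h2
    refine ⟨A'', B'', hA''.trans hA', hB''.trans hB', h4, h5, ?_⟩
    intro i hi
    rcases mem_insert.1 hi with rfl | hi
    · exact h6
    · rcases h3 i hi with h | h
      · exact Or.inl (fun x hx y hy => h x (hA'' hx) y (hB'' hy))
      · exact Or.inr (fun x hx y hy => h x (hA'' hx) y (hB'' hy))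

/-- Splitting one set in two parts that are separated in all `t ≥ 1` orders. -/
theorem split {V : Type*} {t : ℕ} (ht : 1 ≤ t) (f : Fin t → V → ℕ)
    (hf : ∀ i, Function.Injective (f i)) (S : Finset V) (n : ℕ) (hS : 2 ^ t * n ≤ S.card) :
    ∃ A B : Finset V, A ⊆ S ∧ B ⊆ S ∧ n ≤ A.card ∧ n ≤ B.card ∧
      ∀ i, ((∀ x ∈ A, ∀ y ∈ B, f i x < f i y) ∨ (∀ x ∈ A, ∀ y ∈ B, f i y < f i x)) := by
  classical
  have hpow : 2 ^ t = 2 * 2 ^ (t - 1) := by
    obtain ⟨s, rfl⟩ : ∃ s, t = s + 1 := ⟨t - 1, by omega⟩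
    rw [Nat.add_sub_cancel, pow_succ, mul_comm]
  let i0 : Fin t := ⟨0, ht⟩
  obtain ⟨τ, hτ⟩ := threshold S (f i0) (hf i0) (2 ^ (t - 1) * n) (by
    have : 2 ^ (t - 1) * n ≤ 2 ^ t * n := Nat.mul_le_mul_right _ (by omega)
    omega)
  have h1 := card_filter_add_card_filter_not (s := S) (fun x => f i0 x < τ)
  have h2 : 2 ^ (t - 1) * n ≤ (S.filter (fun x => ¬ f i0 x < τ)).card := by
    have : 2 ^ t * n = 2 ^ (t - 1) * n + 2 ^ (t - 1) * n := by rw [hpow]; ring
    omega
  have hcard : (Finset.univ.erase i0).card = t - 1 := by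
    rw [card_erase_of_mem (mem_univ _), card_univ, Fintype.card_fin]
  obtain ⟨A, B, hA, hB, h3, h4, h5⟩ := halveAll f hf (Finset.univ.erase i0)
    (S.filter (fun x => f i0 x < τ)) (S.filter (fun x => ¬ f i0 x < τ)) n
    (by rw [hcard]; exact hτ.ge) (by rw [hcard]; exact h2)
  refine ⟨A, B, hA.trans (filter_subset _ _), hB.trans (filter_subset _ _), h3, h4, ?_⟩
  intro i
  by_cases hi : i = i0
  · left
    intro x hx y hy
    have hx' := (mem_filter.1 (hA hx)).2
    have hy' := (mem_filter.1 (hB hy)).2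
    rw [hi]
    omega
  · exact h5 i (mem_erase.2 ⟨hi, mem_univ _⟩)

/-- The product of the sizes of a clique and of an independent set. -/
theorem product {V : Type*} {t : ℕ} (ht : 1 ≤ t) (G : SimpleGraph V) (f : Fin t → V → ℕ)
    (hf : ∀ i, Function.Injective (f i))
    (hG : ∀ x y x' y' : V, x ≠ y → x' ≠ y' → (∀ i, f i x < f i y ↔ f i x' < f i y') →
      (G.Adj x y ↔ G.Adj x' y')) (m : ℕ) :
    ∀ S : Finset V, (2 ^ m) ^ t ≤ S.card → ∃ A B : Finset V, A ⊆ S ∧ B ⊆ S ∧
      G.IsClique (A : Set V) ∧ Gᶜ.IsClique (B : Set V) ∧ 2 ^ m ≤ A.card * B.card := by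
  classical
  induction m with
  | zero =>
    intro S hS
    rw [pow_zero, one_pow] at hS
    obtain ⟨x, hx⟩ := card_pos.1 hS
    refine ⟨{x}, {x}, by simpa using hx, by simpa using hx, by simp, by simp, by simp⟩
  | succ m ih =>
    intro S hS
    obtain ⟨P, Q, hP, hQ, hPc, hQc, hsep⟩ := split ht f hf S ((2 ^ m) ^ t) (by
      rw [← mul_pow, ← pow_succ']
      exact hS)
    obtain ⟨A1, B1, hA1, hB1, hA1c, hB1c, h1⟩ := ih P hPc
    obtain ⟨A2, B2, hA2, hB2, hA2c, hB2c, h2⟩ := ih Q hQc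
    have hne : ∀ x ∈ P, ∀ y ∈ Q, x ≠ y := by
      intro x hx y hy hxy
      subst hxy
      rcases hsep ⟨0, ht⟩ with h | h
      · exact lt_irrefl _ (h x hx x hy)
      · exact lt_irrefl _ (h x hx x hy)
    have hsame : ∀ x ∈ P, ∀ y ∈ Q, ∀ x' ∈ P, ∀ y' ∈ Q, (G.Adj x y ↔ G.Adj x' y') := by
      intro x hx y hy x' hx' y' hy'
      refine hG x y x' y' (hne x hx y hy) (hne x' hx' y' hy') (fun i => ?_)
      rcases hsep i with h | h
      · exact iff_of_true (h x hx y hy) (h x' hx' y' hy')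
      · exact iff_of_false (not_lt.2 (h x hx y hy).le) (not_lt.2 (h x' hx' y' hy').le)
    have hdA : Disjoint A1 A2 := by
      rw [disjoint_left]
      intro x hx hx'
      exact hne x (hA1 hx) x (hA2 hx') rfl
    have hdB : Disjoint B1 B2 := by
      rw [disjoint_left]
      intro x hx hx'
      exact hne x (hB1 hx) x (hB2 hx') rfl
    have hpos : 0 < 2 ^ m := by positivity
    have hPne : P.Nonempty := card_pos.1 (lt_of_lt_of_le (by positivity) hPc)
    have hQne : Q.Nonempty := card_pos.1 (lt_of_lt_of_le (by positivity) hQc)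
    obtain ⟨x0, hx0⟩ := hPne
    obtain ⟨y0, hy0⟩ := hQne
    by_cases hadj : G.Adj x0 y0
    · -- the two parts are completely joined
      obtain ⟨B, hB, hBc, hB1', hB2'⟩ : ∃ B : Finset V, B ⊆ S ∧ Gᶜ.IsClique (B : Set V) ∧
          B1.card ≤ B.card ∧ B2.card ≤ B.card := by
        rcases Nat.le_total B1.card B2.card with h | h
        · exact ⟨B2, hB2.trans hQ, hB2c, h, le_rfl⟩
        · exact ⟨B1, hB1.trans hP, hB1c, le_rfl, h⟩
      refine ⟨A1 ∪ A2, B, union_subset (hA1.trans hP) (hA2.trans hQ), hB, ?_, hBc, ?_⟩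
      · intro x hx y hy hxy
        rw [mem_coe, mem_union] at hx hy
        rcases hx with hx | hx <;> rcases hy with hy | hy
        · exact hA1c hx hy hxy
        · exact (hsame x (hA1 hx) y (hA2 hy) x0 hx0 y0 hy0).2 hadj
        · exact ((hsame y (hA1 hy) x (hA2 hx) x0 hx0 y0 hy0).2 hadj).symm
        · exact hA2c hx hy hxy
      · rw [card_union_of_disjoint hdA, add_mul, pow_succ]
        have e1 := h1.trans (Nat.mul_le_mul_left A1.card hB1')
        have e2 := h2.trans (Nat.mul_le_mul_left A2.card hB2')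
        omega
    · -- there are no edges between the two parts
      obtain ⟨A, hA, hAc, hA1', hA2'⟩ : ∃ A : Finset V, A ⊆ S ∧ G.IsClique (A : Set V) ∧
          A1.card ≤ A.card ∧ A2.card ≤ A.card := by
        rcases Nat.le_total A1.card A2.card with h | h
        · exact ⟨A2, hA2.trans hQ, hA2c, h, le_rfl⟩
        · exact ⟨A1, hA1.trans hP, hA1c, le_rfl, h⟩
      refine ⟨A, B1 ∪ B2, hA, union_subset (hB1.trans hP) (hB2.trans hQ), hAc, ?_, ?_⟩
      · intro x hx y hy hxy
        rw [mem_coe, mem_union] at hx hy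
        rcases hx with hx | hx <;> rcases hy with hy | hy
        · exact hB1c hx hy hxy
        · rw [SimpleGraph.compl_adj]
          exact ⟨hxy, fun h => hadj ((hsame x (hB1 hx) y (hB2 hy) x0 hx0 y0 hy0).1 h)⟩
        · rw [SimpleGraph.compl_adj]
          exact ⟨hxy, fun h => hadj ((hsame y (hB1 hy) x (hB2 hx) x0 hx0 y0 hy0).1 h.symm)⟩
        · exact hB2c hx hy hxy
      · rw [card_union_of_disjoint hdB, mul_add, pow_succ]
        have e1 := h1.trans (Nat.mul_le_mul_right B1.card hA1')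
        have e2 := h2.trans (Nat.mul_le_mul_right B2.card hA2')
        omega

/-- The upper bound `R_t(k) ≤ (2 k ^ 2) ^ t`. -/
theorem upper {N : ℕ} {t : ℕ} (ht : 1 ≤ t) (k : ℕ) (G : SimpleGraph (Fin N))
    (hG : Determined G t) (hN : (2 * k ^ 2) ^ t ≤ N) :
    ∃ s : Finset (Fin N), k ≤ s.card ∧ Mono G (s : Set (Fin N)) := by
  classical
  rcases Nat.eq_zero_or_pos k with rfl | hk
  · exact ⟨∅, by simp, Or.inl (by simp)⟩
  obtain ⟨f, hf, hG⟩ := hG
  have h1 : k ^ 2 ≤ 2 ^ Nat.clog 2 (k ^ 2) := Nat.le_pow_clog (by norm_num) _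
  have h2 : 2 ^ Nat.clog 2 (k ^ 2) ≤ 2 * k ^ 2 := by
    rcases Nat.eq_zero_or_pos (Nat.clog 2 (k ^ 2)) with h | h
    · rw [h]
      have : 0 < k ^ 2 := by positivity
      omega
    · have h3 : 2 ^ (Nat.clog 2 (k ^ 2)).pred < k ^ 2 := by
        apply Nat.pow_pred_clog_lt_self (by norm_num)
        by_contra h4
        have h5 : Nat.clog 2 (k ^ 2) = 0 := by
          rw [Nat.clog_of_right_le_one (by omega)]
        omega
      have h4 : 2 ^ Nat.clog 2 (k ^ 2) = 2 * 2 ^ (Nat.clog 2 (k ^ 2)).pred := by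
        rw [← pow_succ', ← Nat.succ_eq_add_one, Nat.succ_pred_eq_of_pos h]
      omega
  obtain ⟨A, B, -, -, hA, hB, hAB⟩ := product ht G f hf hG (Nat.clog 2 (k ^ 2)) Finset.univ (by
    rw [card_univ, Fintype.card_fin]
    exact (Nat.pow_le_pow_left h2 t).trans hN)
  by_cases hAk : k ≤ A.card
  · exact ⟨A, hAk, Or.inl hA⟩
  · refine ⟨B, ?_, Or.inr hB⟩
    by_contra hBk
    have h5 : A.card * B.card < k ^ 2 := by
      rw [pow_two]
      exact Nat.mul_lt_mul'' (by omega) (by omega)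
    omega

end Q123.LO
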